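import Pool.Agent.Helper738.KP.Motion

set_option autoImplicit false

namespace Pool.Agent.Results.MP_16e5ec_co.AllWeightsThreeCases

/-- Kneser's weighted inequality for the systems of closed balls `B(p i, ρ i)`, `B(q i, ρ i)`:
for every non-increasing sequence of real weights, the weighted sum of the volumes of the sets of
points covered at least `k` times is for `q` at most what it is for `p`. -/
def WeightedIneq {d n : ℕ} (p q : Fin n → EuclideanSpace ℝ (Fin d)) (ρ : Fin n → ℝ) : Prop :=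
  ∀ τ : Fin n → ℝ, Antitone τ →
    ∑ k : Fin n, τ k *
        (MeasureTheory.volume
          {x : EuclideanSpace ℝ (Fin d) |
            k.val + 1 ≤ (Finset.univ.filter (fun i => dist x (q i) ≤ ρ i)).card}).toReal
      ≤
    ∑ k : Fin n, τ k *
        (MeasureTheory.volume
          {x : EuclideanSpace ℝ (Fin d) |
            k.val + 1 ≤ (Finset.univ.filter (fun i => dist x (p i) ≤ ρ i)).card}).toReal

/-- The point `x` of `ℝ^d` as a point of `ℝ^(d+2)`: two zero coordinates are added. -/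
noncomputable def lift {d : ℕ} (x : EuclideanSpace ℝ (Fin d)) :
    EuclideanSpace ℝ (Fin d ⊕ Fin 2) :=
  WithLp.toLp 2 (Sum.elim (fun j => x j) (fun _ => 0))

/-- **Kneser's weighted multiplicity inequality** (A) for at most `d + 4` balls in every
dimension; (B) in dimensions one and two for any number of balls; (C) in every dimension and for any
number of balls if the centres can be moved in `ℝ^(d+2)` continuously differentiably from the
`p i` to the `q i` so that no distance ever increases. -/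
theorem result :
    (∀ (d n : ℕ), n ≤ d + 4 →
      ∀ (p q : Fin n → EuclideanSpace ℝ (Fin d)) (ρ : Fin n → ℝ),
      (∀ i, 0 < ρ i) → (∀ i j, dist (q i) (q j) ≤ dist (p i) (p j)) → WeightedIneq p q ρ) ∧
    (∀ (d n : ℕ), d ≤ 2 →
      ∀ (p q : Fin n → EuclideanSpace ℝ (Fin d)) (ρ : Fin n → ℝ),
      (∀ i, 0 < ρ i) → (∀ i j, dist (q i) (q j) ≤ dist (p i) (p j)) → WeightedIneq p q ρ) ∧
    (∀ (d n : ℕ) (p q : Fin n → EuclideanSpace ℝ (Fin d)) (ρ : Fin n → ℝ),
      (∀ i, 0 < ρ i) →
      (∃ r : Fin n → ℝ → EuclideanSpace ℝ (Fin d ⊕ Fin 2),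
        (∀ i, ContDiff ℝ 1 (r i)) ∧
        (∀ i, r i 0 = lift (p i)) ∧ (∀ i, r i 1 = lift (q i)) ∧
        ∀ i j, AntitoneOn (fun t => dist (r i t) (r j t)) (Set.Icc 0 1)) →
      WeightedIneq p q ρ) := by
  refine ⟨?_, ?_, ?_⟩
  · intro d n hn p q ρ hρ hpq τ hτ
    exact KP.kneser_of_setFn
      (KP.setFnIneq_of_card (ι := Fin n) (J := Fin d) (by simpa using hn) p q hpq ρ hρ) τ hτ
  · intro d n hd p q ρ hρ hpq τ hτ
    exact KP.kneser_of_setFn
      (KP.setFnIneq_of_low (ι := Fin n) (J := Fin d) (by simpa using hd) p q hpq ρ hρ) τ hτ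
  · rintro d n p q ρ hρ ⟨r, hr, hr0, hr1, hmon⟩ τ hτ
    exact KP.kneser_of_setFn
      (KP.setFnIneq_of_motion (ι := Fin n) (J := Fin d) p q ρ hρ r hr hr0 hr1 hmon) τ hτ

end Pool.Agent.Results.MP_16e5ec_co.AllWeightsThreeCases
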