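import Pool.Agent.Helper738.KP.Kneser

set_option autoImplicit false

namespace Pool.Agent.Results.MP_16e5ec_co.WeightsUpToDPlusFour

/-- **Kneser's weighted multiplicity inequality for at most `d + 4` balls in every dimension.** -/
theorem result :
    ∀ (d n : ℕ), n ≤ d + 4 →
      ∀ (p q : Fin n → EuclideanSpace ℝ (Fin d)) (ρ : Fin n → ℝ),
      (∀ i, 0 < ρ i) →
      (∀ i j, dist (q i) (q j) ≤ dist (p i) (p j)) →
      ∀ τ : Fin n → ℝ, Antitone τ →
        ∑ k : Fin n, τ k *
            (MeasureTheory.volume
              {x : EuclideanSpace ℝ (Fin d) |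
                k.val + 1 ≤ (Finset.univ.filter (fun i => dist x (q i) ≤ ρ i)).card}).toReal
          ≤
        ∑ k : Fin n, τ k *
            (MeasureTheory.volume
              {x : EuclideanSpace ℝ (Fin d) |
                k.val + 1 ≤ (Finset.univ.filter (fun i => dist x (p i) ≤ ρ i)).card}).toReal := by
  intro d n hn p q ρ hρ hpq τ hτ
  exact KP.kneser_of_setFn
    (KP.setFnIneq_of_card (ι := Fin n) (J := Fin d) (by simpa using hn) p q hpq ρ hρ) τ hτ

end Pool.Agent.Results.MP_16e5ec_co.WeightsUpToDPlusFour
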